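import Mathlib

/-!
# Decoupling can depend on the time variable

The model with weights `2, 13, 13, 6, 6, 16` on the steps
`(1,1), (1,0), (0,1), (1,-1), (-1,1), (-1,-1)` and starting point `(1,1)` decouples at `t = 2/127`
but not at `t = 1/676`.
-/

set_option autoImplicit false

namespace Pool.Agent.Results.MP_29028a_co.DecouplingDepends

open Polynomial

/-- A model: a non-singular small step set, positive weights and a starting point. -/
structure Model where
  /-- the steps -/
  S : Finset (ℤ × ℤ)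
  /-- the steps are small and nonzero -/
  small : ∀ s ∈ S, s ≠ (0, 0) ∧ |s.1| ≤ 1 ∧ |s.2| ≤ 1
  /-- every line through the origin has a step strictly on each side -/
  nonsingular : ∀ a b : ℝ, (a ≠ 0 ∨ b ≠ 0) →
    (∃ s ∈ S, 0 < a * s.1 + b * s.2) ∧ (∃ s ∈ S, a * s.1 + b * s.2 < 0)
  /-- the weights -/
  w : ℤ × ℤ → ℝ
  w_pos : ∀ s ∈ S, 0 < w s
  /-- the starting point -/
  p : ℕ
  q : ℕ
  p_pos : 0 < p

/-- The weighted step generating function. -/
noncomputable def Model.P (M : Model) (x y : ℂ) : ℂ := ∑ s ∈ M.S, (M.w s : ℂ) * x ^ s.1 * y ^ s.2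

/-- The total weight `P(1,1)`. -/
noncomputable def Model.total (M : Model) : ℝ := ∑ s ∈ M.S, M.w s

/-- The model decouples at `t`: there are rational functions `R₁ = a₁ / b₁`, `R₂ = a₂ / b₂` with
`x ^ p * y ^ q = R₁ x + R₂ y` at all points of the kernel curve at which they are defined. -/
def Model.Decouples (M : Model) (t : ℝ) : Prop :=
  ∃ a₁ b₁ a₂ b₂ : ℂ[X], b₁ ≠ 0 ∧ b₂ ≠ 0 ∧ ∀ x y : ℂ, x ≠ 0 → y ≠ 0 → 1 - t * M.P x y = 0 →
    b₁.eval x ≠ 0 → b₂.eval y ≠ 0 →
      x ^ M.p * y ^ M.q = a₁.eval x / b₁.eval x + a₂.eval y / b₂.eval y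

/-- The steps of the example. -/
def steps : Finset (ℤ × ℤ) := {(1, 1), (1, 0), (0, 1), (1, -1), (-1, 1), (-1, -1)}

/-- The weights of the example. -/
noncomputable def weight (s : ℤ × ℤ) : ℝ :=
  if s = (1, 1) then 2 else if s = (1, 0) then 13 else if s = (0, 1) then 13 else
    if s = (1, -1) then 6 else if s = (-1, 1) then 6 else 16

theorem weight_pos (s : ℤ × ℤ) : 0 < weight s := by
  unfold weight
  split_ifs <;> norm_num

/-- The example. -/
noncomputable def M : Model where
  S := steps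
  small := by
    intro s hs
    simp only [steps, Finset.mem_insert, Finset.mem_singleton] at hs
    rcases hs with rfl | rfl | rfl | rfl | rfl | rfl <;> decide
  nonsingular := by
    have key : ∀ a b : ℝ, (a ≠ 0 ∨ b ≠ 0) → ∃ s ∈ steps, 0 < a * s.1 + b * s.2 := by
      intro a b h
      rcases lt_trichotomy (a + b) 0 with h1 | h1 | h1
      · exact ⟨(-1, -1), by simp [steps], by push_cast; linarith⟩
      · have ha : a ≠ 0 := by
          rintro rfl
          rcases h with h | h
          · exact h rfl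
          · apply h
            linarith
        rcases lt_or_gt_of_ne ha with h2 | h2
        · exact ⟨(-1, 1), by simp [steps], by push_cast; linarith⟩
        · exact ⟨(1, -1), by simp [steps], by push_cast; linarith⟩
      · exact ⟨(1, 1), by simp [steps], by push_cast; linarith⟩
    intro a b h
    refine ⟨key a b h, ?_⟩
    obtain ⟨s, hs, h1⟩ := key (-a) (-b) (by simpa using h)
    exact ⟨s, hs, by linarith⟩
  w := weight
  w_pos := fun s _ => weight_pos s
  p := 1
  q := 1
  p_pos := one_pos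

theorem total_eq : M.total = 56 := by
  unfold Model.total M steps
  simp only
  rw [Finset.sum_insert (by decide), Finset.sum_insert (by decide), Finset.sum_insert (by decide),
    Finset.sum_insert (by decide), Finset.sum_insert (by decide), Finset.sum_singleton]
  simp [weight]
  norm_num

theorem P_eq {x y : ℂ} (hx : x ≠ 0) (hy : y ≠ 0) :
    x * y * M.P x y = 2 * x ^ 2 * y ^ 2 + 13 * x ^ 2 * y + 13 * x * y ^ 2 + 6 * x ^ 2 + 6 * y ^ 2
      + 16 := by
  unfold Model.P M steps
  simp only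
  rw [Finset.sum_insert (by decide), Finset.sum_insert (by decide), Finset.sum_insert (by decide),
    Finset.sum_insert (by decide), Finset.sum_insert (by decide), Finset.sum_singleton]
  simp [weight]
  field_simp
  ring

/-- The cleared kernel at level `μ = 1 / t`. -/
def K (μ : ℂ) (x y : ℂ) : ℂ := 2 * x ^ 2 * y ^ 2 + 13 * x ^ 2 * y + 13 * x * y ^ 2 + 6 * x ^ 2 +
  6 * y ^ 2 + 16 - μ * x * y

theorem kernel_iff {t : ℝ} (ht : t ≠ 0) {x y : ℂ} (hx : x ≠ 0) (hy : y ≠ 0) :
    1 - t * M.P x y = 0 ↔ K (1 / t) x y = 0 := by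
  have h := P_eq hx hy
  have ht' : (t : ℂ) ≠ 0 := by exact_mod_cast ht
  unfold K
  rw [← h]
  constructor
  · intro h1
    have h2 : M.P x y = 1 / t := by
      field_simp
      linear_combination -h1
    rw [h2]
    ring
  · intro h1
    have h2 : x * y * (M.P x y - 1 / t) = 0 := by linear_combination h1
    rcases mul_eq_zero.1 h2 with h3 | h3
    · exact absurd h3 (mul_ne_zero hx hy)
    · have h4 : M.P x y = 1 / t := sub_eq_zero.1 h3
      rw [h4]
      field_simp
      ring

theorem decouples : M.Decouples (2 / 127) := by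
  refine ⟨(C (-6) * X + C 19) * (C 2 * X + C 1) - C 35, C 2 * X + C 1,
    (C (-6) * X + C 19) * (C 2 * X + C 1) - C 35, C 2 * X + C 1, ?_, ?_, ?_⟩
  · intro h
    have := congrArg (eval 0) h
    simp at this
  · intro h
    have := congrArg (eval 0) h
    simp at this
  · intro x y hx hy h hbx hby
    rw [kernel_iff (by norm_num) hx hy] at h
    simp only [eval_add, eval_mul, eval_C, eval_X] at hbx hby
    simp only [eval_add, eval_mul, eval_C, eval_X, eval_sub]
    have hp : M.p = 1 := rfl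
    have hq : M.q = 1 := rfl
    rw [hp, hq, pow_one, pow_one]
    unfold K at h
    push_cast at h
    rw [div_add_div _ _ hbx hby, eq_div_iff (mul_ne_zero hbx hby)]
    have h127 : (1 : ℂ) / (2 / 127) = 127 / 2 := by norm_num
    rw [h127] at h
    linear_combination 2 * h

/-- The involution. -/
noncomputable def ι (x : ℂ) : ℂ := (104 - 2 * x) / (39 * x + 2)

theorem K_ι {x y : ℂ} (hx : 39 * x + 2 ≠ 0) (h : K 676 x y = 0) : K 676 (ι x) y = 0 := by
  have h1 : (39 * x + 2) ^ 2 * K 676 (ι x) y = 4060 * K 676 x y := by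
    unfold K ι
    field_simp
    ring
  rw [h, mul_zero] at h1
  exact (mul_eq_zero.1 h1).resolve_left (pow_ne_zero 2 hx)

theorem K_symm (x y : ℂ) : K 676 x y = K 676 y x := by
  unfold K
  ring

theorem ι_inj {x x' : ℂ} (hx : 39 * x + 2 ≠ 0) (hx' : 39 * x' + 2 ≠ 0) (h : ι x = ι x') :
    x = x' := by
  unfold ι at h
  rw [div_eq_div_iff hx hx'] at h
  have : (4060 : ℂ) * (x - x') = 0 := by linear_combination -h
  rcases mul_eq_zero.1 this with h1 | h1
  · norm_num at h1
  · exact sub_eq_zero.1 h1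

theorem finite_roots {p : ℂ[X]} (hp : p ≠ 0) : {x : ℂ | p.eval x = 0}.Finite := by
  refine (p.roots.toFinset.finite_toSet).subset fun x hx => ?_
  rw [Finset.mem_coe, Multiset.mem_toFinset, mem_roots hp]
  exact hx

/-- The exceptional values for a denominator. -/
theorem finite_bad {b : ℂ[X]} (hb : b ≠ 0) :
    {x : ℂ | b.eval x = 0 ∨ x = 0 ∨ 39 * x + 2 = 0 ∨ ι x = x ∨ ι x = 0 ∨
      b.eval (ι x) = 0}.Finite := by
  have h2 : {x : ℂ | 39 * x + 2 = 0}.Finite := by
    refine (Set.finite_singleton (-2 / 39 : ℂ)).subset fun x hx => ?_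
    simp only [Set.mem_ofPred_eq] at hx
    rw [Set.mem_singleton_iff]
    linear_combination hx / 39
  have h3 : {x : ℂ | ι x = x}.Finite := by
    have hp : (C 39 * X ^ 2 + C 4 * X - C 104 : ℂ[X]) ≠ 0 := by
      intro h
      have := congrArg (eval 0) h
      simp at this
    refine (h2.union (finite_roots hp)).subset fun x hx => ?_
    by_cases h : 39 * x + 2 = 0
    · exact Or.inl h
    · right
      simp only [Set.mem_ofPred_eq, ι] at hx
      rw [div_eq_iff h] at hx
      simp only [Set.mem_ofPred_eq, eval_add, eval_sub, eval_mul, eval_C, eval_X, eval_pow]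
      linear_combination -hx
  have h4 : ∀ S : Set ℂ, S.Finite → {x : ℂ | ι x ∈ S}.Finite := by
    intro S hS
    have h5 : ({x : ℂ | ι x ∈ S} ∩ {x : ℂ | ¬ 39 * x + 2 = 0}).Finite := by
      refine Set.Finite.of_finite_image (f := ι) ?_ ?_
      · refine hS.subset ?_
        rintro _ ⟨x, hx, rfl⟩
        exact hx.1
      · intro x hx x' hx' h
        exact ι_inj hx.2 hx'.2 h
    refine (h2.union h5).subset fun x hx => ?_
    by_cases h : 39 * x + 2 = 0
    · exact Or.inl h
    · exact Or.inr ⟨hx, h⟩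
  have h5 := finite_roots hb
  refine (h5.union ((Set.finite_singleton (0 : ℂ)).union (h2.union (h3.union
    ((h4 {0} (Set.finite_singleton 0)).union (h4 _ h5)))))).subset fun x hx => ?_
  exact hx

/-- The points of the curve over a given value. -/
theorem finite_fibre (y : ℂ) : {x : ℂ | K 676 x y = 0}.Finite := by
  have hp : (C (2 * y ^ 2 + 13 * y + 6) * X ^ 2 + C (13 * y ^ 2 - 676 * y) * X +
      C (6 * y ^ 2 + 16) : ℂ[X]) ≠ 0 := by
    intro h
    have e0 := congrArg (eval 0) h
    have e1 := congrArg (eval 1) h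
    have e2 := congrArg (eval (-1)) h
    simp only [eval_add, eval_mul, eval_C, eval_X, eval_pow, eval_zero] at e0 e1 e2
    have h1 : 6 * y ^ 2 + 16 = 0 := by linear_combination e0
    have h2 : 13 * y ^ 2 - 676 * y = 0 := by linear_combination e1 / 2 - e2 / 2
    have h3 : y * (13 * y - 676) = 0 := by linear_combination h2
    rcases mul_eq_zero.1 h3 with h4 | h4
    · rw [h4] at h1
      norm_num at h1
    · have h5 : y = 52 := by linear_combination h4 / 13
      rw [h5] at h1
      norm_num at h1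
  refine (finite_roots hp).subset fun x hx => ?_
  simp only [Set.mem_ofPred_eq, K] at hx
  simp only [Set.mem_ofPred_eq, eval_add, eval_mul, eval_C, eval_X, eval_pow]
  linear_combination hx

theorem exists_point (S : Set ℂ) (hS : S.Finite) (S' : Set ℂ) (hS' : S'.Finite) :
    ∃ x y : ℂ, x ∉ S ∧ y ∉ S' ∧ K 676 x y = 0 := by
  have h1 : (⋃ y ∈ S', {x : ℂ | K 676 x y = 0}).Finite := hS'.biUnion fun y _ => finite_fibre y
  have hp : (C 2 * X ^ 2 + C 13 * X + C 6 : ℂ[X]) ≠ 0 := by
    intro h
    have := congrArg (eval 0) h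
    simp at this
  have h2 := (hS.union (h1.union (finite_roots hp)))
  obtain ⟨x, hx⟩ := h2.infinite_compl.nonempty
  simp only [Set.mem_compl_iff, Set.mem_union, not_or] at hx
  obtain ⟨hx1, hx2, hx3⟩ := hx
  have hx3' : 2 * x ^ 2 + 13 * x + 6 ≠ 0 := by
    intro h
    apply hx3
    simp only [Set.mem_ofPred_eq, eval_add, eval_mul, eval_C, eval_X, eval_pow]
    exact h
  have hdeg : (C (2 * x ^ 2 + 13 * x + 6) * X ^ 2 + C (13 * x ^ 2 - 676 * x) * X +
      C (6 * x ^ 2 + 16) : ℂ[X]).degree ≠ 0 := by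
    rw [degree_quadratic hx3']
    norm_num
  obtain ⟨y, hy⟩ := IsAlgClosed.exists_root _ hdeg
  have hy' : K 676 x y = 0 := by
    simp only [IsRoot, eval_add, eval_mul, eval_C, eval_X, eval_pow] at hy
    unfold K
    linear_combination hy
  refine ⟨x, y, hx1, fun hy1 => hx2 ?_, hy'⟩
  simp only [Set.mem_iUnion]
  exact ⟨y, hy1, hy'⟩

theorem not_decouples : ¬ M.Decouples (1 / 676) := by
  rintro ⟨a₁, b₁, a₂, b₂, hb₁, hb₂, h⟩
  obtain ⟨x, y, hx, hy, hK⟩ := exists_point _ (finite_bad hb₁) _ (finite_bad hb₂)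
  simp only [Set.mem_ofPred_eq, not_or] at hx hy
  obtain ⟨hx1, hx2, hx3, hx4, hx5, hx6⟩ := hx
  obtain ⟨hy1, hy2, hy3, hy4, hy5, hy6⟩ := hy
  have key : ∀ x y : ℂ, x ≠ 0 → y ≠ 0 → K 676 x y = 0 → b₁.eval x ≠ 0 → b₂.eval y ≠ 0 →
      x * y = a₁.eval x / b₁.eval x + a₂.eval y / b₂.eval y := by
    intro x y hx hy hK h1 h2
    have h3 := h x y hx hy (by
      rw [kernel_iff (by norm_num) hx hy]
      push_cast
      rw [one_div_one_div]
      exact hK) h1 h2
    have hp : M.p = 1 := rfl
    have hq : M.q = 1 := rfl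
    rwa [hp, hq, pow_one, pow_one] at h3
  have hK1 : K 676 (ι x) y = 0 := K_ι hx3 hK
  have hK2 : K 676 x (ι y) = 0 := by
    rw [K_symm]
    apply K_ι hy3
    rw [K_symm]
    exact hK
  have hK3 : K 676 (ι x) (ι y) = 0 := K_ι hx3 hK2
  have e1 := key x y hx2 hy2 hK hx1 hy1
  have e2 := key (ι x) y hx5 hy2 hK1 hx6 hy1
  have e3 := key x (ι y) hx2 hy5 hK2 hx1 hy6
  have e4 := key (ι x) (ι y) hx5 hy5 hK3 hx6 hy6
  have e5 : (ι x - x) * (ι y - y) = 0 := by linear_combination e1 - e2 - e3 + e4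
  rcases mul_eq_zero.1 e5 with e6 | e6
  · exact hx4 (sub_eq_zero.1 e6)
  · exact hy4 (sub_eq_zero.1 e6)

/-- **There is a model for which decoupling depends on `t`.** -/
theorem result : ∃ (M : Model) (t₁ t₂ : ℝ), (0 < t₁ ∧ t₁ < 1 / M.total) ∧
    (0 < t₂ ∧ t₂ < 1 / M.total) ∧ M.Decouples t₁ ∧ ¬ M.Decouples t₂ := by
  refine ⟨M, 2 / 127, 1 / 676, ⟨by norm_num, ?_⟩, ⟨by norm_num, ?_⟩, decouples, not_decouples⟩
  · rw [total_eq]
    norm_num
  · rw [total_eq]
    norm_num

end Pool.Agent.Results.MP_29028a_co.DecouplingDepends
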